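import Pool.Agent.N869.GK.L.Stm

/-!
# Project GK, part MOMA (helper344): the joint moments from the parts
-/

set_option autoImplicit false
set_option linter.unusedVariables false
set_option linter.unusedSectionVars false

open scoped Classical

namespace Pool.Agent.N344.GK

open Finset
open Pool.Agent.N869.QT.L (prs ext Lc Fam)
open Pool.Agent.N869.GK

/-! ### Sums over functions on a sum type -/

theorem sum_pi_sum {U J D : Type} [Fintype U] [Fintype J] [DecidableEq U] [DecidableEq J]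
    [DecidableEq (U ⊕ J)] (P : U → Finset D)
    (P' : J → Finset D) (f : (U ⊕ J → D) → ℝ) :
    ∑ ζ ∈ Fintype.piFinset (Sum.elim P P'), f ζ =
      ∑ ζU ∈ Fintype.piFinset P, ∑ ζJ ∈ Fintype.piFinset P', f (Sum.elim ζU ζJ) := by
  rw [← Finset.sum_product']
  refine Finset.sum_nbij' (fun ζ => (fun u => ζ (.inl u), fun k => ζ (.inr k)))
    (fun q => Sum.elim q.1 q.2) ?_ ?_ ?_ ?_ ?_
  · intro ζ hζ
    rw [Fintype.mem_piFinset] at hζ
    rw [Finset.mem_product, Fintype.mem_piFinset, Fintype.mem_piFinset]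
    exact ⟨fun u => hζ (.inl u), fun k => hζ (.inr k)⟩
  · intro q hq
    rw [Finset.mem_product, Fintype.mem_piFinset, Fintype.mem_piFinset] at hq
    rw [Fintype.mem_piFinset]
    rintro (u | k)
    · exact hq.1 u
    · exact hq.2 k
  · intro ζ _
    funext i
    rcases i with u | k <;> rfl
  · intro q _
    rfl
  · intro ζ _
    congr 1
    funext i
    rcases i with u | k <;> rfl

section blocks

variable {U J I Q ι : Type} [Fintype J]

theorem mem_TT_inl (W : I → Finset U) (E : I → Finset Q) (g : J → Q) (a : I) (u : U) :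
    Sum.inl u ∈ TT W E g a ↔ u ∈ W a := by
  unfold TT
  rw [Finset.inl_mem_disjSum]

theorem mem_TT_inr (W : I → Finset U) (E : I → Finset Q) (g : J → Q) (a : I) (k : J) :
    Sum.inr k ∈ TT W E g a ↔ g k ∈ E a := by
  unfold TT Lc
  rw [Finset.inr_mem_disjSum]
  simp

theorem card_TT (W : I → Finset U) (E : I → Finset Q) (g : J → Q) (a : I) :
    (TT W E g a).card = (W a).card + (Lc E g a).card := by
  unfold TT
  rw [Finset.card_disjSum]

variable [Fintype ι]

/-- the number of the large primes with multiplicities -/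
theorem sum_Aq_le (W : I → Finset U) (E : I → Finset Q) (g : J → Q) (c : ι → I) :
    ∑ k, (Aq E c (g k)).card ≤ ∑ x, (TT W E g (c x)).card := by
  have h1 : ∑ k, (Aq E c (g k)).card = ∑ x, (Lc E g (c x)).card := by
    unfold Aq Lc
    simp_rw [Finset.card_filter]
    rw [Finset.sum_comm]
  rw [h1]
  refine Finset.sum_le_sum fun x _ => ?_
  rw [card_TT]
  exact Nat.le_add_left _ _

theorem prod_Aq_le (W : I → Finset U) (E : I → Finset Q) (g : J → Q) (c : ι → I) :
    ∏ k, (4 : ℝ) ^ (Aq E c (g k)).card ≤ 4 ^ (∑ x, (TT W E g (c x)).card) := by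
  rw [Finset.prod_pow_eq_pow_sum]
  exact pow_le_pow_right₀ (by norm_num) (sum_Aq_le W E g c)

variable [Fintype I]

/-- a sum over the copies -/
theorem sum_copies (c : ι → I) (f : I → ℕ) : ∑ x, f (c x) = ∑ a, mc c a * f a := by
  rw [← Finset.sum_fiberwise univ c (fun x => f (c x))]
  refine Finset.sum_congr rfl fun a _ => ?_
  rw [Finset.sum_congr rfl (g := fun _ => f a) (fun x hx => by
    rw [(Finset.mem_filter.1 hx).2])]
  rw [Finset.sum_const, smul_eq_mul]
  unfold mc cp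
  congr 2

theorem sum_mc (c : ι → I) : ∑ a, mc c a = Fintype.card ι := by
  have h := sum_copies c (fun _ => 1)
  simp only [mul_one] at h
  rw [← h]
  simp

end blocks

/-! ### The number of the stable sets -/

section count

variable {ι I : Type} [Fintype ι]

/-- extension by zero -/
noncomputable def ex (c : ι → I) (a : I) (ζ : Dc {x // c x = a}) : Dc ι :=
  fun x => if h : c x = a then ζ ⟨x, h⟩ else 0

theorem ex_restrict (c : ι → I) (a : I) (ζ : Dc {x // c x = a}) :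
    (fun x : {x // c x = a} => ex c a ζ x.1) = ζ := by
  funext x
  unfold ex
  rw [dif_pos x.2]

theorem restrict_ex (c : ι → I) (a : I) (ζ : Dc ι) (h : ∀ x, x ∉ cp c a → ζ x = 0) :
    ex c a (fun x => ζ x.1) = ζ := by
  funext x
  unfold ex
  split_ifs with hx
  · rfl
  · exact (h x (fun h' => hx (by
      unfold cp at h'
      exact (Finset.mem_filter.1 h').2))).symm

theorem ex_inj (c : ι → I) (a : I) : Function.Injective (ex c a) := by
  intro ζ ζ' h
  rw [← ex_restrict c a ζ, ← ex_restrict c a ζ', h]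

theorem Qs_ex (c : ι → I) (a : I) (ζ ζ' : Dc {x // c x = a}) :
    Qs (cp c a) (ex c a ζ) (ex c a ζ') = Qs univ ζ ζ' := by
  unfold Qs
  have h1 : cp c a = (univ : Finset {x // c x = a}).map (Function.Embedding.subtype _) := by
    ext x
    unfold cp
    simp
  rw [h1, Finset.sum_map]
  refine Finset.sum_congr rfl fun x _ => ?_
  have e1 : ex c a ζ x.1 = ζ x := congrFun (ex_restrict c a ζ) x
  have e2 : ex c a ζ' x.1 = ζ' x := congrFun (ex_restrict c a ζ') x
  show om ((ex c a ζ x.1).2 + (ex c a ζ' x.1).2) ((ex c a ζ x.1).1 + (ex c a ζ' x.1).1) = _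
  rw [e1, e2]

theorem card_cp (c : ι → I) (a : I) : (cp c a).card = Fintype.card {x // c x = a} := by
  unfold cp
  rw [Fintype.card_subtype]

theorem mem_rd (c : ι → I) (a : I) (Y : Finset (Dc ι)) (η : Dc {x // c x = a}) :
    η ∈ rd c a Y ↔ ∃ ζ ∈ Y, (fun x : {x // c x = a} => ζ x.1) = η := by
  unfold rd
  exact @Finset.mem_image _ _ (_) _ _ _

/-- extension by zero as an embedding -/
noncomputable def exE (c : ι → I) (a : I) : Dc {x // c x = a} ↪ Dc ι := ⟨ex c a, ex_inj c a⟩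

theorem ex_rd (c : ι → I) (a : I) (Z : Finset (Dc ι)) (hZ : MS (cp c a) Z) (ζ : Dc ι)
    (hζ : ζ ∈ Z) : ex c a (fun x => ζ x.1) = ζ := by
  refine restrict_ex c a ζ ?_
  have := hZ.1 hζ
  unfold Sp at this
  exact (Finset.mem_filter.1 this).2

theorem map_rd (c : ι → I) (a : I) (Z : Finset (Dc ι)) (hZ : MS (cp c a) Z) :
    (rd c a Z).map (exE c a) = Z := by
  apply Finset.ext
  intro ζ
  rw [Finset.mem_map]
  constructor
  · rintro ⟨η, hη, rfl⟩
    obtain ⟨ζ, hζ, rfl⟩ := (mem_rd c a Z η).1 hη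
    show ex c a (fun x => ζ x.1) ∈ Z
    rw [ex_rd c a Z hZ ζ hζ]
    exact hζ
  · intro hζ
    exact ⟨fun x => ζ x.1, (mem_rd c a Z _).2 ⟨ζ, hζ, rfl⟩, ex_rd c a Z hZ ζ hζ⟩

theorem MS_rd (c : ι → I) (a : I) (Z : Finset (Dc ι)) (hZ : MS (cp c a) Z) :
    MS univ (rd c a Z) := by
  refine ⟨?_, ?_, ?_⟩
  · intro η _
    unfold Sp
    refine (@Finset.mem_filter _ _ (_) _ _).2 ⟨@Finset.mem_univ _ (_) _, ?_⟩
    exact fun x hx => absurd (Finset.mem_univ x) hx
  · have h1 : (rd c a Z).card = Z.card := by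
      conv_rhs => rw [← map_rd c a Z hZ]
      rw [Finset.card_map]
    rw [h1, hZ.2.1, card_cp, Finset.card_univ]
  · intro η hη η' hη'
    obtain ⟨ζ, hζ, rfl⟩ := (mem_rd c a Z η).1 hη
    obtain ⟨ζ', hζ', rfl⟩ := (mem_rd c a Z η').1 hη'
    rw [← Qs_ex, ex_rd c a Z hZ ζ hζ, ex_rd c a Z hZ ζ' hζ']
    exact hZ.2.2 ζ hζ ζ' hζ'

/-- the sets of decorations of the copies of `a` -/
theorem count_a (hUNL : S_UNL) (hCOUNT : S_COUNT) (c : ι → I) (a : I)
    (hrd : ∀ Z : Finset (Dc ι), MS (cp c a) Z → MS univ (rd c a Z)) :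
    ((univ.filter fun Z : Finset (Dc ι) => MS (cp c a) Z ∧ Stb (rd c a Z)).card : ℝ) =
      4 ^ mc c a * mom (mc c a) := by
  have h1 := hCOUNT hUNL {x // c x = a}
  have h2 : Fintype.card {x // c x = a} = mc c a := (card_cp c a).symm
  rw [h2] at h1
  rw [← h1]
  congr 1
  have hexrd : ∀ Z : Finset (Dc ι), MS (cp c a) Z → (rd c a Z).map (exE c a) = Z := by
    intro Z hZ
    have key : ∀ ζ ∈ Z, ex c a (fun x => ζ x.1) = ζ := by
      intro ζ hζ
      refine restrict_ex c a ζ ?_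
      have := hZ.1 hζ
      unfold Sp at this
      exact (Finset.mem_filter.1 this).2
    apply Finset.ext
    intro ζ
    rw [Finset.mem_map]
    constructor
    · rintro ⟨η, hη, rfl⟩
      obtain ⟨ζ, hζ, rfl⟩ := (mem_rd c a Z η).1 hη
      show ex c a (fun x => ζ x.1) ∈ Z
      rw [key ζ hζ]
      exact hζ
    · intro hζ
      exact ⟨fun x => ζ x.1, (mem_rd c a Z _).2 ⟨ζ, hζ, rfl⟩, key ζ hζ⟩
  have hrdex : ∀ Z' : Finset (Dc {x // c x = a}), rd c a (Z'.map (exE c a)) = Z' := by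
    intro Z'
    apply Finset.ext
    intro η
    rw [mem_rd]
    constructor
    · rintro ⟨ζ, hζ, rfl⟩
      rw [Finset.mem_map] at hζ
      obtain ⟨η', hη', rfl⟩ := hζ
      have : (fun x : {x // c x = a} => (exE c a) η' x.1) = η' := ex_restrict c a η'
      rw [this]
      exact hη'
    · intro hη
      exact ⟨ex c a η, Finset.mem_map.2 ⟨η, hη, rfl⟩, ex_restrict c a η⟩
  refine Finset.card_nbij' (fun Z => rd c a Z) (fun Z' => Z'.map (exE c a)) ?_ ?_ ?_ ?_
  · intro Z hZ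
    have hZ := (Finset.mem_filter.1 (Finset.mem_coe.1 hZ)).2
    exact Finset.mem_coe.2 (Finset.mem_filter.2 ⟨@Finset.mem_univ _ (_) _, hrd Z hZ.1, hZ.2⟩)
  · intro Z' hZ'
    have hZ' := (Finset.mem_filter.1 (Finset.mem_coe.1 hZ')).2
    obtain ⟨⟨hs, hc, hq⟩, hst⟩ := hZ'
    refine Finset.mem_coe.2 (Finset.mem_filter.2 ⟨@Finset.mem_univ _ (_) _, ⟨?_, ?_, ?_⟩, ?_⟩)
    · intro ζ hζ
      rw [Finset.mem_map] at hζ
      obtain ⟨ζ', -, rfl⟩ := hζ
      unfold Sp
      refine Finset.mem_filter.2 ⟨@Finset.mem_univ _ (_) _, fun x hx => ?_⟩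
      show ex c a ζ' x = 0
      unfold ex
      rw [dif_neg]
      intro h
      apply hx
      unfold cp
      rw [Finset.mem_filter]
      exact ⟨Finset.mem_univ _, h⟩
    · rw [Finset.card_map, hc, Finset.card_univ, card_cp]
    · intro ζ hζ ζ' hζ'
      rw [Finset.mem_map] at hζ hζ'
      obtain ⟨ξ, hξ, rfl⟩ := hζ
      obtain ⟨ξ', hξ', rfl⟩ := hζ'
      show Qs (cp c a) (ex c a ξ) (ex c a ξ') = 0
      rw [Qs_ex]
      exact hq ξ hξ ξ' hξ'
    · rw [hrdex]
      exact hst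
  · intro Z hZ
    exact hexrd Z (Finset.mem_filter.1 (Finset.mem_coe.1 hZ)).2.1
  · intro Z' _
    exact hrdex Z'

end count

/-! ### The expansion -/

section main

variable {r : ℕ} {U J I Q ι : Type} [Fintype U] [Fintype J] [LinearOrder J] [Fintype ι]

/-- the decorations with support in the systems -/
theorem supp_iff (W : I → Finset U) (E : I → Finset Q) (g : J → Q) (c : ι → I)
    (ζ : U ⊕ J → Dc ι) :
    (∀ i x, i ∉ TT W E g (c x) → ζ i x = 0) ↔
      ζ ∈ Fintype.piFinset (Sum.elim (fun u => Sp (univ.filter fun x => u ∈ W (c x)))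
        (fun k => Sp (Aq E c (g k)))) := by
  rw [Fintype.mem_piFinset]
  constructor
  · intro h
    rintro (u | k)
    · simp only [Sum.elim_inl, Sp, Finset.mem_filter, Finset.mem_univ, true_and]
      intro x hx
      exact h _ x (fun h' => hx ((mem_TT_inl W E g _ _).1 h'))
    · simp only [Sum.elim_inr, Sp, Aq, Finset.mem_filter, Finset.mem_univ, true_and]
      intro x hx
      exact h _ x (fun h' => hx ((mem_TT_inr W E g _ _).1 h'))
  · intro h i x hi
    rcases i with u | k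
    · have := h (.inl u)
      simp only [Sum.elim_inl, Sp, Finset.mem_filter, Finset.mem_univ, true_and] at this
      exact this x (fun h' => hi ((mem_TT_inl W E g _ _).2 h'))
    · have := h (.inr k)
      simp only [Sum.elim_inr, Sp, Aq, Finset.mem_filter, Finset.mem_univ, true_and] at this
      exact this x (fun h' => hi ((mem_TT_inr W E g _ _).2 h'))

/-- the term of a decoration of the large primes -/
noncomputable def Fn (D : Par r) (W : I → Finset U) (E : I → Finset Q) (g : J → Q) (c : ι → I)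
    (lU : U → Gr r) (lJ : J → Gr r) (A : U → U → ZMod 2) (B : U → J → ZMod 2)
    (ζJ : J → Dc ι) : ℝ :=
  ∑ s : ι → Fin 2 → Gr r,
    ∑ ζU ∈ Fintype.piFinset (fun u => Sp (univ.filter fun x => u ∈ W (c x))),
      if XW D (Sum.elim lU lJ) (fun x => TT W E g (c x)) s (Sum.elim ζU ζJ) then
        sn (Ex D (Sum.elim lU lJ) (Nm D lU lJ A B 0) (fun x => TT W E g (c x)) s
          (Sum.elim ζU ζJ)) else 0

theorem step1 (D : Par r) (W : I → Finset U) (E : I → Finset Q) (g : J → Q) (c : ι → I)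
    (lU : U → Gr r) (lJ : J → Gr r) (A : U → U → ZMod 2) (B : U → J → ZMod 2) :
    ∑ s : ι → Fin 2 → Gr r,
      ∑ ζ ∈ univ.filter (fun ζ : U ⊕ J → Dc ι => (∀ i x, i ∉ TT W E g (c x) → ζ i x = 0) ∧
        XW D (Sum.elim lU lJ) (fun x => TT W E g (c x)) s ζ ∧
        ∀ k l, k ≠ l → Qs (Aq E c (g k) ∩ Aq E c (g l)) (ζ (.inr k)) (ζ (.inr l)) = 0),
        sn (Ex D (Sum.elim lU lJ) (Nm D lU lJ A B 0) (fun x => TT W E g (c x)) s ζ) =
    ∑ ζ ∈ univ.filter (fun ζ : J → Dc ι => (∀ k, ζ k ∈ Sp (Aq E c (g k))) ∧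
      ∀ k l, k ≠ l → Qs (Aq E c (g k) ∩ Aq E c (g l)) (ζ k) (ζ l) = 0),
      Fn D W E g c lU lJ A B ζ := by
  have hR : (univ.filter (fun ζ : J → Dc ι => (∀ k, ζ k ∈ Sp (Aq E c (g k))) ∧
      ∀ k l, k ≠ l → Qs (Aq E c (g k) ∩ Aq E c (g l)) (ζ k) (ζ l) = 0)) =
      (Fintype.piFinset (fun k => Sp (Aq E c (g k)))).filter (fun ζ : J → Dc ι =>
        ∀ k l, k ≠ l → Qs (Aq E c (g k) ∩ Aq E c (g l)) (ζ k) (ζ l) = 0) := by
    apply Finset.ext
    intro ζ
    rw [Finset.mem_filter, Finset.mem_filter, Fintype.mem_piFinset]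
    simp only [Finset.mem_univ, true_and]
  rw [hR, Finset.sum_filter]
  unfold Fn
  have hR2 : ∀ ζJ : J → Dc ι,
      (if (∀ k l, k ≠ l → Qs (Aq E c (g k) ∩ Aq E c (g l)) (ζJ k) (ζJ l) = 0) then
        (∑ s : ι → Fin 2 → Gr r,
          ∑ ζU ∈ Fintype.piFinset (fun u => Sp (univ.filter fun x => u ∈ W (c x))),
          if XW D (Sum.elim lU lJ) (fun x => TT W E g (c x)) s (Sum.elim ζU ζJ) then
          sn (Ex D (Sum.elim lU lJ) (Nm D lU lJ A B 0) (fun x => TT W E g (c x)) s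
          (Sum.elim ζU ζJ)) else 0) else 0) =
      ∑ s : ι → Fin 2 → Gr r,
          ∑ ζU ∈ Fintype.piFinset (fun u => Sp (univ.filter fun x => u ∈ W (c x))),
          if (XW D (Sum.elim lU lJ) (fun x => TT W E g (c x)) s (Sum.elim ζU ζJ) ∧
            ∀ k l, k ≠ l → Qs (Aq E c (g k) ∩ Aq E c (g l)) (ζJ k) (ζJ l) = 0) then
          sn (Ex D (Sum.elim lU lJ) (Nm D lU lJ A B 0) (fun x => TT W E g (c x)) s
          (Sum.elim ζU ζJ)) else 0 := by
    intro ζJ
    split_ifs with h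
    · refine Finset.sum_congr rfl fun s _ => Finset.sum_congr rfl fun ζU _ => ?_
      by_cases hx : XW D (Sum.elim lU lJ) (fun x => TT W E g (c x)) s (Sum.elim ζU ζJ)
      · rw [if_pos hx, if_pos ⟨hx, fun k l hkl => h k l hkl⟩]
      · rw [if_neg hx, if_neg (fun hh => hx hh.1)]
    · symm
      refine Finset.sum_eq_zero fun s _ => Finset.sum_eq_zero fun ζU _ => ?_
      rw [if_neg (fun hh => h hh.2)]
  rw [Finset.sum_congr rfl (fun ζJ _ => hR2 ζJ), Finset.sum_comm]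
  refine Finset.sum_congr rfl fun s _ => ?_
  rw [Finset.sum_comm]
  have hL : (univ.filter (fun ζ : U ⊕ J → Dc ι => (∀ i x, i ∉ TT W E g (c x) → ζ i x = 0) ∧
        XW D (Sum.elim lU lJ) (fun x => TT W E g (c x)) s ζ ∧
        ∀ k l, k ≠ l → Qs (Aq E c (g k) ∩ Aq E c (g l)) (ζ (.inr k)) (ζ (.inr l)) = 0)) =
      (Fintype.piFinset (Sum.elim (fun u => Sp (univ.filter fun x => u ∈ W (c x)))
        (fun k => Sp (Aq E c (g k))))).filter (fun ζ : U ⊕ J → Dc ι =>
        XW D (Sum.elim lU lJ) (fun x => TT W E g (c x)) s ζ ∧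
        ∀ k l, k ≠ l → Qs (Aq E c (g k) ∩ Aq E c (g l)) (ζ (.inr k)) (ζ (.inr l)) = 0) := by
    apply Finset.ext
    intro ζ
    rw [Finset.mem_filter, Finset.mem_filter, ← supp_iff]
    simp only [Finset.mem_univ, true_and]
  rw [hL, Finset.sum_filter, sum_pi_sum]
  rfl

theorem abs_sn_le (a : ZMod 2) : |sn a| ≤ 1 := by
  unfold sn
  split_ifs <;> simp

theorem Fn_le (D : Par r) (W : I → Finset U) (E : I → Finset Q) (g : J → Q) (c : ι → I)
    (lU : U → Gr r) (lJ : J → Gr r) (A : U → U → ZMod 2) (B : U → J → ZMod 2)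
    (ζJ : J → Dc ι) : |Fn D W E g c lU lJ A B ζJ| ≤
      4 ^ (r * Fintype.card ι) * 16 ^ (Fintype.card ι * Fintype.card U) := by
  unfold Fn
  refine (Finset.abs_sum_le_sum_abs _ _).trans ?_
  have h1 : ∀ s : ι → Fin 2 → Gr r,
      |∑ ζU ∈ Fintype.piFinset (fun u => Sp (univ.filter fun x => u ∈ W (c x))),
        if XW D (Sum.elim lU lJ) (fun x => TT W E g (c x)) s (Sum.elim ζU ζJ) then
          sn (Ex D (Sum.elim lU lJ) (Nm D lU lJ A B 0) (fun x => TT W E g (c x)) s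
            (Sum.elim ζU ζJ)) else 0| ≤ 16 ^ (Fintype.card ι * Fintype.card U) := by
    intro s
    refine (Finset.abs_sum_le_sum_abs _ _).trans ?_
    have h2 : ∀ ζU ∈ Fintype.piFinset (fun u => Sp (univ.filter fun x => u ∈ W (c x))),
        |(if XW D (Sum.elim lU lJ) (fun x => TT W E g (c x)) s (Sum.elim ζU ζJ) then
          sn (Ex D (Sum.elim lU lJ) (Nm D lU lJ A B 0) (fun x => TT W E g (c x)) s
            (Sum.elim ζU ζJ)) else 0)| ≤ (1 : ℝ) := by
      intro ζU _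
      split_ifs
      · exact abs_sn_le _
      · simp
    refine (Finset.sum_le_card_nsmul _ _ _ h2).trans ?_
    rw [nsmul_eq_mul, mul_one]
    have h3 : (Fintype.piFinset (fun u : U =>
        (Sp (univ.filter fun x => u ∈ W (c x)) : Finset (Dc ι)))).card ≤
        16 ^ (Fintype.card ι * Fintype.card U) := by
      rw [Fintype.card_piFinset, pow_mul, ← Finset.card_univ (α := U), ← Finset.prod_const]
      refine Finset.prod_le_prod' fun u _ => ?_
      have h4 := Finset.card_le_univ (Sp (univ.filter fun x => u ∈ W (c x)) : Finset (Dc ι))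
      refine h4.trans (le_of_eq ?_)
      rw [Fintype.card_fun]
      congr 1
    exact_mod_cast h3
  refine (Finset.sum_le_card_nsmul _ _ _ (fun s _ => h1 s)).trans ?_
  rw [nsmul_eq_mul]
  refine mul_le_mul_of_nonneg_right (le_of_eq ?_) (by positivity)
  rw [Finset.card_univ, Fintype.card_fun, Fintype.card_fun, Fintype.card_fun, Fintype.card_fin,
    Fintype.card_fin, ZMod.card]
  push_cast
  rw [← pow_mul, ← pow_mul, show r * (2 * Fintype.card ι) = 2 * (r * Fintype.card ι) by ring,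
    pow_mul]
  norm_num

/-! ### The main term -/

variable [Fintype I] [Fintype Q]

theorem PZ_zero (c : ι → I) (Y : I → Finset (Dc ι)) (P : I → Prop) (ζ : Dc ι)
    (h : ζ ∈ PZ c Y P) (x : ι) (hx : ¬ P (c x)) : ζ x = 0 := by
  unfold PZ at h
  have h1 := (Finset.mem_filter.1 h).1
  unfold Sp at h1
  exact (Finset.mem_filter.1 h1).2 x (fun h2 => hx (Finset.mem_filter.1 h2).2)

theorem PZ_sub (W : I → Finset U) (c : ι → I) (Y : I → Finset (Dc ι)) (u : U) :
    (PZ c Y fun a => u ∈ W a) ⊆ Sp (univ.filter fun x => u ∈ W (c x)) := by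
  intro ζ h
  unfold Sp
  refine Finset.mem_filter.2 ⟨Finset.mem_univ _, fun x hx => ?_⟩
  refine PZ_zero c Y _ ζ h x (fun h' => hx ?_)
  exact Finset.mem_filter.2 ⟨Finset.mem_univ _, h'⟩

theorem step3 (hUNL : S_UNL) (hSMALL : S_SMALL) (hFACT : S_FACT) (D : Par r) (K : ℕ)
    (W : I → Finset U) (E : I → Finset Q) (g : J → Q) (c : ι → I)
    (lU : U → Gr r) (lJ : J → Gr r) (A : U → U → ZMod 2) (B : U → J → ZMod 2) (hF : Fam E)
    (hG : HypG D K W E g lU lJ A B) (Y : I → Finset (Dc ι)) (hY : ∀ a, MS (cp c a) (Y a)) :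
    ∑ ζ ∈ Fintype.piFinset (fun k => PZ c Y fun a => g k ∈ E a),
        Fn D W E g c lU lJ A B ζ =
      ∏ a, One D (fun i : {i // i ∈ TT W E g a} => (Sum.elim lU lJ : U ⊕ J → Gr r) i.1)
        (fun i j => Nm D lU lJ A B 0 i.1 j.1) (rd c a (Y a)) := by
  have hf := (hFACT r D (U ⊕ J) I ι (TT W E g) c (Sum.elim lU lJ) (Nm D lU lJ A B 0) Y hY).1
  rw [← hf]
  unfold Fn
  rw [Finset.sum_comm]
  refine Finset.sum_congr rfl fun s _ => ?_
  rw [Finset.sum_comm]
  have hsub : Fintype.piFinset (fun u : U => PZ c Y fun a => u ∈ W a) ⊆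
      Fintype.piFinset (fun u : U => (Sp (univ.filter fun x => u ∈ W (c x)) : Finset (Dc ι))) :=
    Fintype.piFinset_subset _ _ fun u => PZ_sub W c Y u
  rw [← Finset.sum_subset hsub]
  · rw [← sum_pi_sum (fun u : U => PZ c Y fun a => u ∈ W a)
      (fun k : J => PZ c Y fun a => g k ∈ E a)
      (fun ζ => if XW D (Sum.elim lU lJ) (fun x => TT W E g (c x)) s ζ then
        sn (Ex D (Sum.elim lU lJ) (Nm D lU lJ A B 0) (fun x => TT W E g (c x)) s ζ) else 0),
      Finset.sum_filter]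
    have e : (Sum.elim (fun u : U => PZ c Y fun a => u ∈ W a)
        (fun k : J => PZ c Y fun a => g k ∈ E a)) =
        fun i : U ⊕ J => PZ c Y fun a => i ∈ TT W E g a := by
      funext i
      rcases i with u | k
      · show (PZ c Y fun a => u ∈ W a) = _
        congr 1
        funext a
        exact propext (mem_TT_inl W E g a u).symm
      · show (PZ c Y fun a => g k ∈ E a) = _
        congr 1
        funext a
        exact propext (mem_TT_inr W E g a k).symm
    rw [e]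
    refine Finset.sum_congr ?_ fun _ _ => rfl
    refine Finset.ext fun ζ => ?_
    exact (@Fintype.mem_piFinset _ (_) (_) _ _ _).trans (@Fintype.mem_piFinset _ (_) (_) _ _ _).symm
  · intro ζU hζ hζ'
    rw [Fintype.mem_piFinset] at hζ
    rw [Fintype.mem_piFinset] at hζ'
    push Not at hζ'
    have h1 := hSMALL hUNL r D K U J I Q ι W E g c lU lJ A B hF hG Y hY s ζU hζ hζ'
    rw [Finset.sum_filter] at h1
    exact h1

theorem step3' (hUNL : S_UNL) (hSMALL : S_SMALL) (hFACT : S_FACT) (D : Par r) (K : ℕ)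
    (W : I → Finset U) (E : I → Finset Q) (g : J → Q) (c : ι → I)
    (lU : U → Gr r) (lJ : J → Gr r) (A : U → U → ZMod 2) (B : U → J → ZMod 2) (hF : Fam E)
    (hG : HypG D K W E g lU lJ A B) (Y : I → Finset (Dc ι)) (hY : ∀ a, MS (cp c a) (Y a)) :
    ∑ ζ ∈ @Fintype.piFinset J (fun a b => Classical.propDecidable (a = b)) _ _
        (fun k => PZ c Y fun a => g k ∈ E a), Fn D W E g c lU lJ A B ζ =
      ∏ a, One D (fun i : {i // i ∈ TT W E g a} => (Sum.elim lU lJ : U ⊕ J → Gr r) i.1)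
        (fun i j => Nm D lU lJ A B 0 i.1 j.1) (rd c a (Y a)) := by
  rw [← step3 hUNL hSMALL hFACT D K W E g c lU lJ A B hF hG Y hY]
  refine Finset.sum_congr ?_ fun _ _ => rfl
  refine Finset.ext fun ζ => ?_
  exact (@Fintype.mem_piFinset _ (_) (_) _ _ _).trans (@Fintype.mem_piFinset _ (_) (_) _ _ _).symm

theorem hyp1 (D : Par r) (K : ℕ) (hK : 1 ≤ K) (W : I → Finset U) (E : I → Finset Q) (g : J → Q)
    (lU : U → Gr r) (lJ : J → Gr r) (A : U → U → ZMod 2) (B : U → J → ZMod 2) (hF : Fam E)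
    (hG : HypG D K W E g lU lJ A B) (a : I) :
    Hyp1 D (fun i : {i // i ∈ TT W E g a} => (Sum.elim lU lJ : U ⊕ J → Gr r) i.1)
        (fun i j => Nm D lU lJ A B 0 i.1 j.1) univ := by
  refine ⟨fun π => ?_, ?_, ?_⟩
  · obtain ⟨q, hq⟩ := hF.ne a
    have h1 := hG.many q π
    have h2 : 0 < (univ.filter fun k => g k = q ∧ lJ k = π).card := by
      refine lt_of_lt_of_le ?_ h1
      positivity
    obtain ⟨k, hk⟩ := Finset.card_pos.1 h2
    have hk' := (Finset.mem_filter.1 hk).2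
    refine ⟨⟨.inr k, (mem_TT_inr W E g a k).2 (by rw [hk'.1]; exact hq)⟩,
      @Finset.mem_univ _ (_) _, hk'.2⟩
  · have h1 := hG.par a
    have h2 : ∑ i ∈ TT W E g a, (Sum.elim lU lJ : U ⊕ J → Gr r) i = 0 := by
      unfold TT
      rw [Finset.sum_disjSum]
      exact h1
    rw [← h2]
    exact Finset.sum_coe_sort (TT W E g a) (Sum.elim lU lJ : U ⊕ J → Gr r)
  · rintro ⟨i, hi⟩ - ⟨j, hj⟩ - hij
    have hij' : i ≠ j := fun h => hij (Subtype.ext h)
    show Nm D lU lJ A B 0 i j + Nm D lU lJ A B 0 j i =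
      dot D.em ((Sum.elim lU lJ : U ⊕ J → Gr r) i) * dot D.em ((Sum.elim lU lJ : U ⊕ J → Gr r) j)
    rcases i with u | k <;> rcases j with v | l
    · exact hG.recip u v (fun h => hij' (by rw [h]))
    · show (B u l + dot D.em (lU u) * dot D.em (lJ l)) + B u l =
        dot D.em (lU u) * dot D.em (lJ l)
      have : B u l + B u l = 0 := CharTwo.add_self_eq_zero _
      linear_combination this
    · show B v k + (B v k + dot D.em (lU v) * dot D.em (lJ k)) =
        dot D.em (lJ k) * dot D.em (lU v)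
      have : B v k + B v k = 0 := CharTwo.add_self_eq_zero _
      linear_combination this
    · show ext (fun k => dot D.em (lJ k)) 0 k l + ext (fun k => dot D.em (lJ k)) 0 l k =
        dot D.em (lJ k) * dot D.em (lJ l)
      have hkl : k ≠ l := fun h => hij' (by rw [h])
      have hm : ∀ x y : J, ((x, y) ∈ prs J) ↔ x < y := by
        intro x y
        unfold Pool.Agent.N869.QT.L.prs
        rw [Finset.mem_filter]
        simp
      unfold Pool.Agent.N869.QT.L.ext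
      rcases lt_or_gt_of_ne hkl with h | h
      · rw [dif_neg (fun h' => absurd ((hm _ _).1 h') (not_lt.2 h.le)), dif_pos ((hm _ _).2 h),
          dif_pos ((hm _ _).2 h)]
        simp
      · rw [dif_pos ((hm _ _).2 h), dif_neg (fun h' => absurd ((hm _ _).1 h') (not_lt.2 h.le)),
          dif_pos ((hm _ _).2 h)]
        simp [mul_comm]

theorem many1 (D : Par r) (K : ℕ) (W : I → Finset U) (E : I → Finset Q) (g : J → Q)
    (lU : U → Gr r) (lJ : J → Gr r) (A : U → U → ZMod 2) (B : U → J → ZMod 2) (hF : Fam E)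
    (hG : HypG D K W E g lU lJ A B) (a : I) (π : Gr r) :
    K * (Fintype.card U + Nat.log 2 (Fintype.card J) + 1) ≤
      (univ.filter fun i : {i // i ∈ TT W E g a} =>
        (Sum.elim lU lJ : U ⊕ J → Gr r) i.1 = π).card := by
  obtain ⟨q, hq⟩ := hF.ne a
  refine (hG.many q π).trans ?_
  have hmem : ∀ k ∈ (univ.filter fun k => g k = q ∧ lJ k = π), Sum.inr k ∈ TT W E g a := by
    intro k hk
    have hk' := (Finset.mem_filter.1 hk).2
    exact (mem_TT_inr W E g a k).2 (by rw [hk'.1]; exact hq)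
  have h1 : (univ.filter fun k => g k = q ∧ lJ k = π).card =
      ((univ.filter fun k => g k = q ∧ lJ k = π).map (Function.Embedding.inr (α := U))).card := by
    rw [Finset.card_map]
  have h2 : (univ.filter fun i : {i // i ∈ TT W E g a} =>
        (Sum.elim lU lJ : U ⊕ J → Gr r) i.1 = π).card =
      ((univ.filter fun i : {i // i ∈ TT W E g a} =>
        (Sum.elim lU lJ : U ⊕ J → Gr r) i.1 = π).map (Function.Embedding.subtype _)).card := by
    rw [Finset.card_map]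
  rw [h1, h2]
  apply Finset.card_le_card
  intro i hi
  obtain ⟨k, hk, rfl⟩ := Finset.mem_map.1 hi
  refine Finset.mem_map.2 ⟨⟨Sum.inr k, hmem k hk⟩, ?_, rfl⟩
  exact Finset.mem_filter.2 ⟨@Finset.mem_univ _ (_) _, (Finset.mem_filter.1 hk).2.2⟩

/-- the bound for the product over the systems -/
theorem prod_bound {I : Type} [Fintype I] (One : I → ℝ) (st : I → Prop) (m T : I → ℕ) (r n L : ℕ)
    (hn : ∑ a, m a = n) (h1 : ∀ a, st a → One a = 4 ^ (m a * T a))
    (h2 : ∀ a, ¬ st a → |One a| ≤ 4 ^ (r * m a) * (1 / 2) ^ L * 4 ^ (m a * T a)) :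
    |∏ a, One a - (if ∀ a, st a then (4 : ℝ) ^ (∑ a, m a * T a) else 0)| ≤
      4 ^ (r * n) * (1 / 2) ^ L * 4 ^ (∑ a, m a * T a) := by
  have e1 : ∏ a, (4 : ℝ) ^ (m a * T a) = 4 ^ (∑ a, m a * T a) := by
    rw [Finset.prod_pow_eq_pow_sum]
  split_ifs with h
  · rw [Finset.prod_congr rfl (fun a _ => h1 a (h a)), e1, sub_self, abs_zero]
    positivity
  · rw [sub_zero]
    push Not at h
    obtain ⟨a₀, ha₀⟩ := h
    rw [Finset.abs_prod]
    have hle : ∀ a ∈ (univ : Finset I), |One a| ≤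
        4 ^ (r * m a) * (if a = a₀ then (1 / 2 : ℝ) ^ L else 1) * 4 ^ (m a * T a) := by
      intro a _
      have hL : (1 / 2 : ℝ) ^ L ≤ 1 := pow_le_one₀ (by norm_num) (by norm_num)
      have h4 : (1 : ℝ) ≤ 4 ^ (r * m a) := one_le_pow₀ (by norm_num)
      by_cases ha : a = a₀
      · rw [if_pos ha]
        exact h2 a (by rw [ha]; exact ha₀)
      · rw [if_neg ha, mul_one]
        by_cases hs : st a
        · rw [h1 a hs, abs_of_pos (by positivity)]
          have : (0:ℝ) < 4 ^ (m a * T a) := by positivity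
          nlinarith
        · refine (h2 a hs).trans ?_
          have : 4 ^ (r * m a) * (1 / 2 : ℝ) ^ L ≤ 4 ^ (r * m a) := by
            have : (0:ℝ) < 4 ^ (r * m a) := by positivity
            nlinarith
          gcongr
    refine (Finset.prod_le_prod (fun a _ => abs_nonneg _) hle).trans (le_of_eq ?_)
    rw [Finset.prod_mul_distrib, Finset.prod_mul_distrib, e1, Finset.prod_ite_eq' univ a₀,
      if_pos (Finset.mem_univ _), Finset.prod_pow_eq_pow_sum, ← Finset.mul_sum, hn]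

/-- the choice of the constant -/
theorem choose_K (n r : ℕ) (C CY ε : ℝ) (hC : 0 ≤ C) (hCY : 0 ≤ CY) (hε : 0 < ε) :
    ∃ K : ℕ, 1 ≤ K ∧ ∀ u L : ℕ, K * (u + 1) ≤ L →
      C * (4 ^ (r * n) * 16 ^ (n * u)) * (1 - (1 / 4 : ℝ) ^ n) ^ (2 * L) +
        CY * (4 ^ (r * n) * (1 / 2) ^ L) ≤ ε := by
  set ρ : ℝ := 1 - (1 / 4 : ℝ) ^ n with hρ
  have h0 : (0:ℝ) < (1 / 4 : ℝ) ^ n := by positivity
  have h1 : (1 / 4 : ℝ) ^ n ≤ 1 := pow_le_one₀ (by norm_num) (by norm_num)
  have hρ0 : 0 ≤ ρ := by rw [hρ]; linarith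
  have hρ1 : ρ < 1 := by rw [hρ]; linarith
  have t1 : Filter.Tendsto (fun K : ℕ => 16 ^ n * ρ ^ K) Filter.atTop (nhds 0) := by
    have := (tendsto_pow_atTop_nhds_zero_of_lt_one hρ0 hρ1).const_mul ((16:ℝ) ^ n)
    rwa [mul_zero] at this
  have t2 : Filter.Tendsto (fun K : ℕ => C * 4 ^ (r * n) * ρ ^ K) Filter.atTop (nhds 0) := by
    have := (tendsto_pow_atTop_nhds_zero_of_lt_one hρ0 hρ1).const_mul (C * (4:ℝ) ^ (r * n))
    rwa [mul_zero] at this
  have t3 : Filter.Tendsto (fun K : ℕ => CY * 4 ^ (r * n) * (1 / 2 : ℝ) ^ K) Filter.atTop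
      (nhds 0) := by
    have := (tendsto_pow_atTop_nhds_zero_of_lt_one (by norm_num : (0:ℝ) ≤ 1 / 2)
      (by norm_num)).const_mul (CY * (4:ℝ) ^ (r * n))
    rwa [mul_zero] at this
  obtain ⟨K, hK1, hK2, hK3, hK4⟩ := ((t1.eventually_le_const (by norm_num : (0:ℝ) < 1)).and
    ((t2.eventually_le_const (by positivity : (0:ℝ) < ε / 2)).and
    ((t3.eventually_le_const (by positivity : (0:ℝ) < ε / 2)).and
    (Filter.eventually_ge_atTop 1)))).exists
  refine ⟨K, hK4, fun u L hL => ?_⟩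
  have b1 : 16 ^ (n * u) * ρ ^ (2 * L) ≤ ρ ^ K := by
    have c1 : ρ ^ (2 * L) ≤ ρ ^ (K * u + K) := by
      apply pow_le_pow_of_le_one hρ0 hρ1.le
      nlinarith
    calc 16 ^ (n * u) * ρ ^ (2 * L) ≤ 16 ^ (n * u) * ρ ^ (K * u + K) := by gcongr
      _ = (16 ^ n * ρ ^ K) ^ u * ρ ^ K := by
        rw [mul_pow, pow_add, ← pow_mul, ← pow_mul]
        ring
      _ ≤ 1 * ρ ^ K := by
        have : (16 ^ n * ρ ^ K) ^ u ≤ 1 := pow_le_one₀ (by positivity) hK1
        gcongr
      _ = ρ ^ K := one_mul _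
  have b2 : (1 / 2 : ℝ) ^ L ≤ (1 / 2) ^ K := by
    apply pow_le_pow_of_le_one (by norm_num) (by norm_num)
    nlinarith
  have b3 : C * (4 ^ (r * n) * 16 ^ (n * u)) * ρ ^ (2 * L) ≤ ε / 2 := by
    calc C * (4 ^ (r * n) * 16 ^ (n * u)) * ρ ^ (2 * L)
        = C * 4 ^ (r * n) * (16 ^ (n * u) * ρ ^ (2 * L)) := by ring
      _ ≤ C * 4 ^ (r * n) * ρ ^ K := by gcongr
      _ ≤ ε / 2 := hK2
  have b4 : CY * (4 ^ (r * n) * (1 / 2) ^ L) ≤ ε / 2 := by
    calc CY * (4 ^ (r * n) * (1 / 2) ^ L) = CY * 4 ^ (r * n) * (1 / 2) ^ L := by ring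
      _ ≤ CY * 4 ^ (r * n) * (1 / 2) ^ K := by gcongr
      _ ≤ ε / 2 := hK3
  linarith

end main

theorem t_MOMA : S_MOMA := by
  intro hUNL hFAM hSPLIT hEXP hSMALL hFACT hPAIR hVAL hCOUNT hAUTO hTOR hKC
  intro r D hD ι I Q _ _ _ E c hF ε hε
  obtain ⟨C, hC, hS⟩ := hSPLIT hUNL hFAM ι I Q E c hF
  set 𝒴 : Finset (I → Finset (Dc ι)) := univ.filter (fun Y : I → Finset (Dc ι) =>
    ∀ a, MS (cp c a) (Y a)) with h𝒴
  obtain ⟨K', hK', hch⟩ := choose_K (Fintype.card ι) r C (𝒴.card : ℝ) ε hC (Nat.cast_nonneg _) hε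
  refine ⟨2 * K', ?_⟩
  intro U J _ _ _ W g lU lJ A B hG
  set n := Fintype.card ι with hn
  set Λ := K' * (Fintype.card U + Nat.log 2 (Fintype.card J) + 1) with hΛ
  set σ := ∑ x, (TT W E g (c x)).card with hσ
  set X : ℝ := ((univ.filter fun y : (prs J → ZMod 2) × (ι → (Fin 2 → Gr r) × (U ⊕ J → V)) =>
      ∀ x, Sol D (Sum.elim lU lJ) (Nm D lU lJ A B y.1) (TT W E g (c x)) (y.2 x)).card : ℝ)
    with hX
  have hexp := hEXP r D U J I Q ι W E g c lU lJ A B
  rw [step1 D W E g c lU lJ A B, ← hX, ← hσ] at hexp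
  set S := ∑ ζ ∈ univ.filter (fun ζ : J → Dc ι => (∀ k, ζ k ∈ Sp (Aq E c (g k))) ∧
      ∀ k l, k ≠ l → Qs (Aq E c (g k) ∩ Aq E c (g l)) (ζ k) (ζ l) = 0),
      Fn D W E g c lU lJ A B ζ with hSdef
  have hsplit := hS J g (Fn D W E g c lU lJ A B)
    (4 ^ (r * n) * 16 ^ (n * Fintype.card U)) (2 * Λ) (Fn_le D W E g c lU lJ A B)
    (fun q => by
      have h1 := hG.many q 0
      have h2 : 2 * Λ = 2 * K' * (Fintype.card U + Nat.log 2 (Fintype.card J) + 1) := by
        rw [hΛ]; ring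
      rw [h2]
      refine h1.trans (Finset.card_le_card ?_)
      intro k hk
      exact Finset.mem_filter.2 ⟨Finset.mem_univ _, (Finset.mem_filter.1 hk).2.1⟩)
  -- the main term
  set PO : (I → Finset (Dc ι)) → ℝ := fun Y => ∏ a,
      One D (fun i : {i // i ∈ TT W E g a} => (Sum.elim lU lJ : U ⊕ J → Gr r) i.1)
        (fun i j => Nm D lU lJ A B 0 i.1 j.1) (rd c a (Y a)) with hPO
  have hsplit2 : |S - ∑ Y ∈ 𝒴, PO Y| ≤ C * (4 ^ (r * n) * 16 ^ (n * Fintype.card U)) *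
      (1 - (1 / 4 : ℝ) ^ n) ^ (2 * Λ) * ∏ k, (4 : ℝ) ^ (Aq E c (g k)).card := by
    have key : ∀ A B R : ℝ, |A - B| ≤ R → A = S → B = ∑ Y ∈ 𝒴, PO Y →
        |S - ∑ Y ∈ 𝒴, PO Y| ≤ R := by
      intro A B R h h1 h2
      rw [← h1, ← h2]
      exact h
    refine key _ _ _ hsplit ?_ ?_
    · rw [hSdef]
      refine Finset.sum_congr ?_ (fun _ _ => rfl)
      apply Finset.ext
      intro ζ
      constructor
      · intro h
        have h1 := (@Finset.mem_filter _ _ (_) _ _).1 h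
        exact (@Finset.mem_filter _ _ (_) _ _).2 ⟨@Finset.mem_univ _ (_) _, h1.2⟩
      · intro h
        have h1 := (@Finset.mem_filter _ _ (_) _ _).1 h
        exact (@Finset.mem_filter _ _ (_) _ _).2 ⟨@Finset.mem_univ _ (_) _, h1.2⟩
    · refine Finset.sum_congr rfl (fun Y hY => ?_)
      refine Eq.trans ?_ (step3' hUNL hSMALL hFACT D (2 * K') W E g c lU lJ A B
        hF hG Y (Finset.mem_filter.1 hY).2)
      congr!
  have hσ2 : ∑ a, mc c a * (TT W E g a).card = σ :=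
    (sum_copies c (fun a => (TT W E g a).card)).symm
  have h4σ : (0:ℝ) < 4 ^ σ := by positivity
  have hYb : ∀ Y ∈ 𝒴, |PO Y - (if ∀ a, Stb (rd c a (Y a)) then (4 : ℝ) ^ σ else 0)| ≤
      4 ^ (r * n) * (1 / 2) ^ Λ * 4 ^ σ := by
    intro Y hY
    have hY' := (Finset.mem_filter.1 hY).2
    have hMS := (hFACT r D (U ⊕ J) I ι (TT W E g) c (Sum.elim lU lJ) (Nm D lU lJ A B 0) Y hY').2
    have hb := prod_bound (fun a => One D (fun i : {i // i ∈ TT W E g a} =>
        (Sum.elim lU lJ : U ⊕ J → Gr r) i.1) (fun i j => Nm D lU lJ A B 0 i.1 j.1) (rd c a (Y a)))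
      (fun a => Stb (rd c a (Y a))) (fun a => mc c a) (fun a => (TT W E g a).card) r n Λ
      (sum_mc c) ?_ ?_
    · rw [hσ2] at hb
      exact hb
    · intro a ha
      have h1 := hVAL hUNL hAUTO hTOR hKC r D hD {i // i ∈ TT W E g a} {x // c x = a}
        (fun i => (Sum.elim lU lJ : U ⊕ J → Gr r) i.1) (fun i j => Nm D lU lJ A B 0 i.1 j.1)
        (hyp1 D (2 * K') (by omega) W E g lU lJ A B hF hG a) (rd c a (Y a)) (hMS a) ha
      rw [← card_cp c a, Fintype.card_coe] at h1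
      exact h1
    · intro a ha
      have h1 := hPAIR hUNL r D hD {i // i ∈ TT W E g a} {x // c x = a}
        (fun i => (Sum.elim lU lJ : U ⊕ J → Gr r) i.1) (fun i j => Nm D lU lJ A B 0 i.1 j.1) Λ
        (hyp1 D (2 * K') (by omega) W E g lU lJ A B hF hG a)
        (fun π => by
          have h2 := many1 D (2 * K') W E g lU lJ A B hF hG a π
          rw [mul_assoc] at h2
          exact h2) (rd c a (Y a)) (hMS a) ha
      rw [← card_cp c a, Fintype.card_coe] at h1
      exact h1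
  -- the count
  have hcount : ((𝒴.filter fun Y => ∀ a, Stb (rd c a (Y a))).card : ℝ) =
      ∏ a, (4 : ℝ) ^ mc c a * mom (mc c a) := by
    have e1 : (𝒴.filter fun Y => ∀ a, Stb (rd c a (Y a))) =
        Fintype.piFinset (fun a => univ.filter fun Z : Finset (Dc ι) =>
          MS (cp c a) Z ∧ Stb (rd c a Z)) := by
      apply Finset.ext
      intro Y
      rw [h𝒴, Finset.mem_filter, Finset.mem_filter, Fintype.mem_piFinset]
      constructor
      · rintro ⟨⟨-, h1⟩, h2⟩ a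
        exact Finset.mem_filter.2 ⟨Finset.mem_univ _, h1 a, h2 a⟩
      · intro h
        exact ⟨⟨Finset.mem_univ _, fun a => (Finset.mem_filter.1 (h a)).2.1⟩,
          fun a => (Finset.mem_filter.1 (h a)).2.2⟩
    rw [e1, Fintype.card_piFinset]
    push_cast
    exact Finset.prod_congr rfl fun a _ => count_a hUNL hCOUNT c a (fun Z hZ => MS_rd c a Z hZ)
  have hsum : |∑ Y ∈ 𝒴, PO Y - (∏ a, (4 : ℝ) ^ mc c a * mom (mc c a)) * 4 ^ σ| ≤
      (𝒴.card : ℝ) * (4 ^ (r * n) * (1 / 2) ^ Λ * 4 ^ σ) := by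
    rw [← hcount]
    have e1 : ((𝒴.filter fun Y => ∀ a, Stb (rd c a (Y a))).card : ℝ) * 4 ^ σ =
        ∑ Y ∈ 𝒴, (if ∀ a, Stb (rd c a (Y a)) then (4 : ℝ) ^ σ else 0) := by
      rw [← Finset.sum_filter, Finset.sum_const, nsmul_eq_mul]
    rw [e1, ← Finset.sum_sub_distrib]
    refine (Finset.abs_sum_le_sum_abs _ _).trans ?_
    refine (Finset.sum_le_card_nsmul _ _ _ hYb).trans (le_of_eq ?_)
    rw [nsmul_eq_mul]
  have hprod := prod_Aq_le W E g c
  have hM0 : 0 ≤ C * (4 ^ (r * n) * 16 ^ (n * Fintype.card U)) *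
      (1 - (1 / 4 : ℝ) ^ n) ^ (2 * Λ) := by
    have h1 : (1 / 4 : ℝ) ^ n ≤ 1 := pow_le_one₀ (by norm_num) (by norm_num)
    have h2 : 0 ≤ 1 - (1 / 4 : ℝ) ^ n := by linarith
    positivity
  have hsplit3 : |S - ∑ Y ∈ 𝒴, PO Y| ≤ C * (4 ^ (r * n) * 16 ^ (n * Fintype.card U)) *
      (1 - (1 / 4 : ℝ) ^ n) ^ (2 * Λ) * 4 ^ σ :=
    hsplit2.trans (mul_le_mul_of_nonneg_left hprod hM0)
  have hfinal := hch (Fintype.card U) Λ (by rw [hΛ]; exact Nat.mul_le_mul_left _ (by omega))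
  have hdiff : |S - (∏ a, (4 : ℝ) ^ mc c a * mom (mc c a)) * 4 ^ σ| ≤ ε * 4 ^ σ := by
    have h1 := abs_sub_le S (∑ Y ∈ 𝒴, PO Y) ((∏ a, (4 : ℝ) ^ mc c a * mom (mc c a)) * 4 ^ σ)
    refine h1.trans ((add_le_add hsplit3 hsum).trans ?_)
    calc _ = (C * (4 ^ (r * n) * 16 ^ (n * Fintype.card U)) * (1 - (1 / 4 : ℝ) ^ n) ^ (2 * Λ) +
          (𝒴.card : ℝ) * (4 ^ (r * n) * (1 / 2) ^ Λ)) * 4 ^ σ := by ring
      _ ≤ ε * 4 ^ σ := mul_le_mul_of_nonneg_right hfinal h4σ.le
  have h2p : (0:ℝ) < 2 ^ (prs J).card := by positivity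
  have e2 : X / 2 ^ (prs J).card - ∏ a, (4 : ℝ) ^ mc c a * mom (mc c a) =
      (S - (∏ a, (4 : ℝ) ^ mc c a * mom (mc c a)) * 4 ^ σ) / 4 ^ σ := by
    rw [eq_div_iff h4σ.ne', sub_mul, div_mul_eq_mul_div, hexp, mul_div_cancel_left₀ _ h2p.ne']
  rw [e2, abs_div, abs_of_pos h4σ, div_le_iff₀ h4σ]
  exact hdiff

end Pool.Agent.N344.GK
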